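import Pool.Agent.Helper16.KL.P0
import Pool.Agent.Helper1.KA.Stmts

set_option autoImplicit false

/-!
Project KA, KA-12: statement of the extension step (the KA version of `Helper16.KL.P0b`).
-/

namespace Pool.Agent.Helper16.KAP

open Pool.Agent.Helper16 Pool.Agent.HC Pool.Agent.Helper1.KA
open Pool.Agent.Helper1.KL (Var VarF Key key fld spec cyc relations rat CH coef Idx)
open Pool.Agent.Helper1.KL (aff xc yc tr ec red xpt perp Prp ratf Vert Con At0 Quo cls IT RT)
open Pool.Agent.Helper16.KLP (Above resL Gs mp)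

/-- KA-12-5. For a point `x` of `AV` over `N` there is a finite separable extension `M` of
`L = N(t)` with a point `z` of `X` with the coordinates `x`. -/
def StExt (k : Type) [Field k] (p a : ℕ) [Fact p.Prime] {n : ℕ} (c : Fin n → k)
    (τ : Fin n → Option (ZMod p)) : Prop :=
  ∀ (N : Type) [Field N] [Algebra k N] (x : Fin n → Option N) (r : ℕ),
    Algebra.EssFiniteType k N → Algebra.trdeg k N = r + 1 → AV a c τ N x → RT τ ≠ 0 →
    ∃ (L M : Type) (_ : Field L) (_ : Field M) (_ : Algebra k L) (_ : Algebra k M)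
      (_ : Algebra N L) (_ : Algebra N M) (_ : Algebra L M) (_ : Algebra (RatFunc k) L)
      (_ : Algebra (RatFunc k) M) (_ : IsScalarTower k N L) (_ : IsScalarTower k (RatFunc k) L)
      (_ : IsScalarTower k N M) (_ : IsScalarTower k (RatFunc k) M) (_ : IsScalarTower N L M)
      (_ : IsScalarTower (RatFunc k) L M) (_ : IsScalarTower k L M)
      (_ : FiniteDimensional L M) (_ : Algebra.IsSeparable L M)
      (z : Fin n ⊕ Fin n → Option M),
      Transcendental N (tv k L) ∧ IntermediateField.adjoin N {tv k L} = ⊤ ∧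
      Algebra.EssFiniteType (RatFunc k) M ∧ Algebra.trdeg (RatFunc k) M = r + 1 ∧
      XV p a c M z ∧ xpt z = mp x ∧ (∀ i ∈ IT τ, z (Sum.inr i) ≠ none) ∧
      (Bfun τ x = 0 → ec (RT τ) z = 1)

end Pool.Agent.Helper16.KAP
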